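import Mathlib

/-! Zero count in a disc (Jensen / Mahler measure): `2 ^ N(r) * |p 0| ≤ ∑ |a_i| (2 r)^i`. -/

namespace Pool.Agent.Helper48.EV

open Polynomial

/-- The coefficientwise majorant `∑ |a_i| x^i`. -/
noncomputable def maj (p : ℂ[X]) (x : ℝ) : ℝ := p.sum fun i a => ‖a‖ * x ^ i

theorem prod_max_le (m : Multiset ℂ) (s : ℝ) (hs : 0 < s) (p : ℂ[X]) (hp : p ≠ 0)
    (hm : m = p.roots) :
    ‖p.leadingCoeff‖ * (m.map (fun z => max s ‖z‖)).prod ≤ maj p s := by
  subst hm
  set q : ℂ[X] := p.comp (C (s : ℂ) * X) with hq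
  have hsC : (s : ℂ) ≠ 0 := by exact_mod_cast hs.ne'
  have h1 : q = C p.leadingCoeff * (p.roots.map (fun z => C (s : ℂ) * X + C (-z))).prod := by
    rw [hq]
    nth_rw 1 [(IsAlgClosed.splits p).eq_prod_roots]
    rw [mul_comp, C_comp, multiset_prod_comp, Multiset.map_map]
    congr 2
    apply Multiset.map_congr rfl
    intro z _
    simp [sub_eq_add_neg]
  have h2 : q.mahlerMeasure = ‖p.leadingCoeff‖ * (p.roots.map (fun z => max s ‖z‖)).prod := by
    rw [h1, mahlerMeasure_mul, mahlerMeasure_const, prod_mahlerMeasure_eq_mahlerMeasure_prod,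
      Multiset.map_map]
    congr 2
    apply Multiset.map_congr rfl
    intro z _
    simp only [Function.comp]
    rw [mahlerMeasure_C_mul_X_add_C hsC]
    simp [abs_of_pos hs]
  rw [← h2]
  refine (mahlerMeasure_le_sum_norm_coeff q).trans (le_of_eq ?_)
  have hc : ∀ i, q.coeff i = p.coeff i * (s : ℂ) ^ i := by
    intro i
    rw [hq, comp_C_mul_X_coeff]
  have hsupp : q.support = p.support := by
    ext i
    simp only [mem_support_iff, hc, ne_eq, mul_eq_zero, pow_eq_zero_iff', hsC, false_and, or_false]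
  unfold maj
  rw [sum_def, sum_def, hsupp]
  apply Finset.sum_congr rfl
  intro i _
  rw [hc, norm_mul, norm_pow]
  simp [abs_of_pos hs]

theorem two_pow_filter_le (m : Multiset ℂ) (r : ℝ) (hr : 0 < r) :
    (2 : ℝ) ^ (m.filter (fun z => ‖z‖ ≤ r)).card * (m.map (fun z => ‖z‖)).prod
      ≤ (m.map (fun z => max (2 * r) ‖z‖)).prod := by
  induction m using Multiset.induction_on with
  | empty => simp
  | cons a m ih =>
    have hp : 0 ≤ (m.map (fun z => ‖z‖)).prod :=
      Multiset.prod_nonneg (by simp only [Multiset.mem_map]; rintro _ ⟨z, _, rfl⟩; positivity)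
    have hp2 : 0 ≤ (m.map (fun z => max (2 * r) ‖z‖)).prod :=
      Multiset.prod_nonneg (by simp only [Multiset.mem_map]; rintro _ ⟨z, _, rfl⟩; positivity)
    rw [Multiset.map_cons, Multiset.prod_cons, Multiset.map_cons, Multiset.prod_cons]
    by_cases h : ‖a‖ ≤ r
    · rw [Multiset.filter_cons_of_pos (p := fun z : ℂ => ‖z‖ ≤ r) m h, Multiset.card_cons, pow_succ]
      calc (2 : ℝ) ^ (m.filter (fun z => ‖z‖ ≤ r)).card * 2 * (‖a‖ * (m.map (fun z => ‖z‖)).prod)
          = (2 * ‖a‖) * ((2 : ℝ) ^ (m.filter (fun z => ‖z‖ ≤ r)).card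
              * (m.map (fun z => ‖z‖)).prod) := by ring
        _ ≤ max (2 * r) ‖a‖ * (m.map (fun z => max (2 * r) ‖z‖)).prod := by
            apply mul_le_mul _ ih (by positivity) (by positivity)
            exact (mul_le_mul_of_nonneg_left h (by norm_num)).trans (le_max_left _ _)
    · rw [Multiset.filter_cons_of_neg (p := fun z : ℂ => ‖z‖ ≤ r) m h]
      calc (2 : ℝ) ^ (m.filter (fun z => ‖z‖ ≤ r)).card * (‖a‖ * (m.map (fun z => ‖z‖)).prod)
          = ‖a‖ * ((2 : ℝ) ^ (m.filter (fun z => ‖z‖ ≤ r)).card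
              * (m.map (fun z => ‖z‖)).prod) := by ring
        _ ≤ max (2 * r) ‖a‖ * (m.map (fun z => max (2 * r) ‖z‖)).prod := by
            apply mul_le_mul (le_max_right _ _) ih (by positivity) (by positivity)

/-- Jensen: number of zeros in `|z| ≤ r`. -/
theorem two_pow_card_roots (p : ℂ[X]) (hp : p ≠ 0) (r : ℝ) (hr : 0 < r) :
    (2 : ℝ) ^ (p.roots.filter (fun z => ‖z‖ ≤ r)).card * ‖p.coeff 0‖ ≤ maj p (2 * r) := by
  have h0 : ‖p.coeff 0‖ = ‖p.leadingCoeff‖ * (p.roots.map (fun z => ‖z‖)).prod := by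
    have := (IsAlgClosed.splits p).coeff_zero_eq_leadingCoeff_mul_prod_roots
    rw [this, norm_mul, norm_mul, norm_pow, norm_neg, norm_one, one_pow, one_mul]
    congr 1
    exact (map_multiset_prod (normHom : ℂ →*₀ ℝ) p.roots)
  rw [h0]
  refine le_trans ?_ (prod_max_le p.roots (2 * r) (by positivity) p hp rfl)
  have := two_pow_filter_le p.roots r hr
  calc _ = ‖p.leadingCoeff‖ * ((2 : ℝ) ^ (p.roots.filter (fun z => ‖z‖ ≤ r)).card
            * (p.roots.map (fun z => ‖z‖)).prod) := by ring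
    _ ≤ _ := mul_le_mul_of_nonneg_left this (norm_nonneg _)

/-- Real polynomial with nonnegative coefficients: `2 ^ N(r) * p(0) ≤ p(2r)`. -/
theorem two_pow_card_roots_real (p : ℝ[X]) (hp : p ≠ 0) (hc : ∀ i, 0 ≤ p.coeff i)
    (r : ℝ) (hr : 0 < r) :
    (2 : ℝ) ^ ((p.map (algebraMap ℝ ℂ)).roots.filter (fun z => ‖z‖ ≤ r)).card * p.coeff 0
      ≤ p.eval (2 * r) := by
  have hinj : Function.Injective (algebraMap ℝ ℂ) := (algebraMap ℝ ℂ).injective
  have h := two_pow_card_roots (p.map (algebraMap ℝ ℂ)) ((Polynomial.map_ne_zero_iff hinj).2 hp) r hr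
  have e1 : ‖(p.map (algebraMap ℝ ℂ)).coeff 0‖ = p.coeff 0 := by
    rw [coeff_map]
    simp [abs_of_nonneg (hc 0)]
  have e2 : maj (p.map (algebraMap ℝ ℂ)) (2 * r) = p.eval (2 * r) := by
    unfold maj
    rw [sum_def, support_map_of_injective _ hinj, eval_eq_sum, sum_def]
    apply Finset.sum_congr rfl
    intro i _
    rw [coeff_map]
    simp [abs_of_nonneg (hc i)]
  rwa [e1, e2] at h

end Pool.Agent.Helper48.EV
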