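import Mathlib

/-! Convexity of `u ↦ log P(e^u)` for a polynomial with nonnegative coefficients. -/

namespace Pool.Agent.Helper48.EV

open Polynomial

/-- `mean P y = y P'(y) / P(y)`. -/
noncomputable def mean (P : ℝ[X]) (y : ℝ) : ℝ := y * P.derivative.eval y / P.eval y

theorem sum_mul_pow (P : ℝ[X]) (y : ℝ) :
    y * P.derivative.eval y = ∑ i ∈ P.support, (i : ℝ) * (P.coeff i * y ^ i) := by
  rw [derivative_eval, sum_def, Finset.mul_sum]
  apply Finset.sum_congr rfl
  intro i _
  rcases Nat.eq_zero_or_pos i with h | h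
  · subst h; simp
  · obtain ⟨j, rfl⟩ : ∃ j, i = j + 1 := ⟨i - 1, by omega⟩
    simp only [Nat.add_sub_cancel, pow_succ]
    ring

/-- Tangent inequality: `P(x) ≥ P(y) (x/y)^{mean y}`. -/
theorem tangent (P : ℝ[X]) (hc : ∀ i, 0 ≤ P.coeff i) (x y : ℝ) (hx : 0 < x) (hy : 0 < y)
    (hPy : 0 < P.eval y) :
    P.eval y * Real.exp (mean P y * Real.log (x / y)) ≤ P.eval x := by
  have hw0 : ∀ i ∈ P.support, 0 ≤ P.coeff i * y ^ i / P.eval y := fun i _ =>
    div_nonneg (mul_nonneg (hc i) (pow_nonneg hy.le i)) hPy.le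
  have hw1 : ∑ i ∈ P.support, P.coeff i * y ^ i / P.eval y = 1 := by
    rw [← Finset.sum_div]
    rw [show ∑ i ∈ P.support, P.coeff i * y ^ i = P.eval y by rw [eval_eq_sum, sum_def]]
    exact div_self hPy.ne'
  have h := convexOn_exp.map_sum_le (t := P.support)
    (w := fun i => P.coeff i * y ^ i / P.eval y) (p := fun i => (i : ℝ) * Real.log (x / y))
    hw0 hw1 (fun i _ => Set.mem_univ _)
  have e1 : ∑ i ∈ P.support, (P.coeff i * y ^ i / P.eval y) • ((i : ℝ) * Real.log (x / y))
      = mean P y * Real.log (x / y) := by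
    unfold mean
    rw [sum_mul_pow, Finset.sum_div, Finset.sum_mul]
    apply Finset.sum_congr rfl
    intro i _
    simp only [smul_eq_mul]
    ring
  have e2 : ∑ i ∈ P.support, (P.coeff i * y ^ i / P.eval y) • Real.exp ((i : ℝ) * Real.log (x / y))
      = P.eval x / P.eval y := by
    rw [eval_eq_sum (x := x), sum_def, Finset.sum_div]
    apply Finset.sum_congr rfl
    intro i _
    have : Real.exp ((i : ℝ) * Real.log (x / y)) = (x / y) ^ i := by
      rw [← Real.log_pow, Real.exp_log (by positivity)]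
    simp only [smul_eq_mul]
    rw [this, div_pow]
    field_simp
  rw [e1, e2] at h
  rw [mul_comm]
  exact (le_div_iff₀ hPy).1 h

/-- `mean` lies between the slopes of `log P(e^u)`. -/
theorem slope_le_mean (P : ℝ[X]) (hc : ∀ i, 0 ≤ P.coeff i) (x y : ℝ) (hx : 0 < x) (hy : 0 < y)
    (hPx : 0 < P.eval x) (hPy : 0 < P.eval y) :
    Real.log (P.eval y) - Real.log (P.eval x) ≤ mean P y * (Real.log y - Real.log x) := by
  have h := Real.log_le_log (by positivity) (tangent P hc x y hx hy hPy)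
  rw [Real.log_mul hPy.ne' (Real.exp_pos _).ne', Real.log_exp,
    Real.log_div hx.ne' hy.ne'] at h
  linarith [show mean P y * (Real.log x - Real.log y) = -(mean P y * (Real.log y - Real.log x)) by ring]

theorem mean_nonneg (P : ℝ[X]) (hc : ∀ i, 0 ≤ P.coeff i) (y : ℝ) (hy : 0 < y)
    (hPy : 0 < P.eval y) : 0 ≤ mean P y := by
  unfold mean
  rw [sum_mul_pow]
  apply div_nonneg _ hPy.le
  apply Finset.sum_nonneg
  intro i _
  have := hc i
  positivity

theorem mean_le_natDegree (P : ℝ[X]) (hc : ∀ i, 0 ≤ P.coeff i) (y : ℝ) (hy : 0 < y)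
    (hPy : 0 < P.eval y) : mean P y ≤ P.natDegree := by
  unfold mean
  rw [sum_mul_pow, div_le_iff₀ hPy, eval_eq_sum, sum_def, Finset.mul_sum]
  apply Finset.sum_le_sum
  intro i hi
  have h1 : (i : ℝ) ≤ P.natDegree := by exact_mod_cast le_natDegree_of_mem_supp i hi
  have h2 : 0 ≤ P.coeff i * y ^ i := mul_nonneg (hc i) (pow_nonneg hy.le i)
  exact mul_le_mul_of_nonneg_right h1 h2

/-- `mean` is continuous on `(0, ∞)`. -/
theorem continuousOn_mean (P : ℝ[X]) (hP : ∀ y, 0 < y → 0 < P.eval y) :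
    ContinuousOn (mean P) (Set.Ioi 0) := by
  unfold mean
  apply ContinuousOn.div
  · exact (continuous_id.mul P.derivative.continuous).continuousOn
  · exact P.continuous.continuousOn
  · intro y hy
    exact (hP y hy).ne'

/-- `mean` is monotone. -/
theorem mean_mono (P : ℝ[X]) (hc : ∀ i, 0 ≤ P.coeff i) (x y : ℝ) (hx : 0 < x) (hxy : x ≤ y)
    (hPx : 0 < P.eval x) (hPy : 0 < P.eval y) : mean P x ≤ mean P y := by
  rcases eq_or_lt_of_le hxy with h | h
  · rw [h]
  · have hy : 0 < y := hx.trans h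
    have h1 := slope_le_mean P hc x y hx hy hPx hPy
    have h2 := slope_le_mean P hc y x hy hx hPy hPx
    have h3 : 0 < Real.log y - Real.log x := sub_pos.2 (Real.log_lt_log hx h)
    nlinarith

end Pool.Agent.Helper48.EV
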