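import Mathlib

/-! Zeros near `0`: a polynomial which does not vanish at `4 sinh² φ` for
`0 < Re φ ≤ Φ`, `|Im φ| ≤ θ₀` has only real negative zeros near `0`. -/

namespace Pool.Agent.Helper48.EV

open Polynomial Complex

theorem sqrt_sq (v : ℂ) : (v ^ ((1 : ℂ) / 2)) ^ 2 = v := by
  rw [← cpow_nat_mul]
  simp

theorem sqrt_re_nonneg (v : ℂ) : 0 ≤ (v ^ ((1 : ℂ) / 2)).re := by
  by_cases hv : v = 0
  · subst hv
    simp
  · rw [cpow_def_of_ne_zero hv, exp_re]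
    apply mul_nonneg (Real.exp_pos _).le
    have him : (log v * (1 / 2)).im = v.arg / 2 := by
      have : (1 / 2 : ℂ) = ((1 / 2 : ℝ) : ℂ) := by push_cast; ring
      rw [this, im_mul_ofReal, log_im]
      ring
    rw [him]
    apply Real.cos_nonneg_of_mem_Icc
    have h1 := neg_pi_lt_arg v
    have h2 := arg_le_pi v
    constructor <;> linarith

theorem sqrt_re_pos (v : ℂ) (hv : v ∈ slitPlane) : 0 < (v ^ ((1 : ℂ) / 2)).re := by
  have hv0 : v ≠ 0 := slitPlane_ne_zero hv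
  rw [cpow_def_of_ne_zero hv0, exp_re]
  apply mul_pos (Real.exp_pos _)
  have him : (log v * (1 / 2)).im = v.arg / 2 := by
    have : (1 / 2 : ℂ) = ((1 / 2 : ℝ) : ℂ) := by push_cast; ring
    rw [this, im_mul_ofReal, log_im]
    ring
  rw [him]
  apply Real.cos_pos_of_mem_Ioo
  have h1 := neg_pi_lt_arg v
  have h2 : v.arg < Real.pi := lt_of_le_of_ne (arg_le_pi v) (mem_slitPlane_iff_arg.1 hv).1
  constructor <;> linarith

theorem norm_sqrt (v : ℂ) : ‖v ^ ((1 : ℂ) / 2)‖ ^ 2 = ‖v‖ := by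
  rw [← norm_pow, sqrt_sq]

/-- `‖√(1+v) - 1‖ ≤ ‖v‖`. -/
theorem norm_sqrt_one_add_sub_one (v : ℂ) : ‖(1 + v) ^ ((1 : ℂ) / 2) - 1‖ ≤ ‖v‖ := by
  set s := (1 + v) ^ ((1 : ℂ) / 2) with hs
  have h1 : (s - 1) * (s + 1) = v := by
    have := sqrt_sq (1 + v)
    rw [← hs] at this
    linear_combination this
  have h2 : 1 ≤ ‖s + 1‖ := by
    have h3 : (s + 1).re ≤ ‖s + 1‖ := re_le_norm _
    have h4 : 0 ≤ s.re := sqrt_re_nonneg _
    simp only [add_re, one_re] at h3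
    linarith
  calc ‖s - 1‖ ≤ ‖s - 1‖ * ‖s + 1‖ := le_mul_of_one_le_right (norm_nonneg _) h2
    _ = ‖v‖ := by rw [← norm_mul, h1]

/-- The inverse of `φ ↦ 4 sinh² φ` near `0`. -/
theorem exists_phi (z : ℂ) (hz : z ∈ slitPlane) (hz4 : ‖z‖ ≤ 1 / 4) :
    ∃ φ : ℂ, 0 < φ.re ∧ ‖φ‖ ≤ 2 * Real.sqrt ‖z‖ ∧ 4 * sinh φ ^ 2 = z := by
  set w : ℂ := z ^ ((1 : ℂ) / 2) / 2 with hw
  have hwn : ‖w‖ = Real.sqrt ‖z‖ / 2 := by
    have h1 : ‖z ^ ((1 : ℂ) / 2)‖ = Real.sqrt ‖z‖ := by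
      rw [← norm_sqrt z, Real.sqrt_sq (norm_nonneg _)]
    rw [hw, norm_div, h1]
    norm_num
  have hsq : Real.sqrt ‖z‖ ≤ 1 / 2 := by
    rw [show (1 / 2 : ℝ) = Real.sqrt (1 / 4) by
      rw [show (1 / 4 : ℝ) = (1 / 2) ^ 2 by norm_num, Real.sqrt_sq (by norm_num)]]
    exact Real.sqrt_le_sqrt hz4
  have hw4 : ‖w‖ ≤ 1 / 4 := by rw [hwn]; linarith
  have hwre : 0 < w.re := by
    have := sqrt_re_pos z hz
    rw [hw]
    have h2 : (z ^ ((1 : ℂ) / 2) / 2).re = (z ^ ((1 : ℂ) / 2)).re / 2 := by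
      have : (2 : ℂ) = ((2 : ℝ) : ℂ) := by norm_num
      rw [this, div_ofReal_re]
    rw [h2]
    linarith
  have hw2 : 4 * w ^ 2 = z := by
    rw [hw, div_pow, sqrt_sq]
    ring
  set s : ℂ := (1 + w ^ 2) ^ ((1 : ℂ) / 2) with hs
  have hs2 : s ^ 2 = 1 + w ^ 2 := sqrt_sq _
  have hs1 : ‖s - 1‖ ≤ ‖w‖ ^ 2 := by
    have := norm_sqrt_one_add_sub_one (w ^ 2)
    rwa [norm_pow] at this
  set u : ℂ := w + s with hu
  have hinv : u * (s - w) = 1 := by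
    rw [hu]
    linear_combination hs2
  have hu0 : u ≠ 0 := left_ne_zero_of_mul_eq_one hinv
  have hu1 : ‖u - 1‖ ≤ 2 * ‖w‖ := by
    calc ‖u - 1‖ = ‖w + (s - 1)‖ := by rw [hu]; congr 1; ring
      _ ≤ ‖w‖ + ‖s - 1‖ := norm_add_le _ _
      _ ≤ ‖w‖ + ‖w‖ ^ 2 := by linarith
      _ ≤ 2 * ‖w‖ := by nlinarith [norm_nonneg w]
  have hure : 0 < u.re := by
    have : 0 ≤ s.re := sqrt_re_nonneg _
    rw [hu, add_re]
    linarith
  have hinv' : u⁻¹ = s - w := by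
    rw [inv_eq_of_mul_eq_one_right hinv]
  have hun : 1 < ‖u‖ := by
    by_contra hcon
    push Not at hcon
    have h2w : 2 * w = u - u⁻¹ := by rw [hinv', hu]; ring
    have hre : 2 * w.re = u.re - (u⁻¹).re := by
      have := congrArg Complex.re h2w
      simpa using this
    rw [inv_re] at hre
    have hn : normSq u ≤ 1 := by
      rw [normSq_eq_norm_sq]
      exact pow_le_one₀ (norm_nonneg _) hcon
    have hn0 : 0 < normSq u := normSq_pos.2 hu0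
    have : u.re ≤ u.re / normSq u := by
      rw [le_div_iff₀ hn0]
      nlinarith
    linarith
  refine ⟨log u, ?_, ?_, ?_⟩
  · rw [log_re]
    exact Real.log_pos hun
  · have h2 : ‖u - 1‖ ≤ 1 / 2 := by linarith
    have h3 := norm_log_one_add_half_le_self (z := u - 1) h2
    rw [add_sub_cancel] at h3
    calc ‖log u‖ ≤ 3 / 2 * ‖u - 1‖ := h3
      _ ≤ 3 / 2 * (2 * ‖w‖) := by linarith
      _ ≤ 2 * Real.sqrt ‖z‖ := by
        rw [hwn]
        have := Real.sqrt_nonneg ‖z‖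
        linarith
  · have hsinh : sinh (log u) = w := by
      rw [sinh, exp_neg, exp_log hu0, hinv', hu]
      ring
    rw [hsinh, hw2]

/-- CORE (a): small zeros are real and negative. -/
theorem real_negative (P : ℝ[X]) (Φ θ₀ ε : ℝ)
    (hP : ∀ φ : ℂ, 0 < φ.re → φ.re ≤ Φ → |φ.im| ≤ θ₀ →
      (P.map (algebraMap ℝ ℂ)).eval (4 * sinh φ ^ 2) ≠ 0)
    (h0 : P.coeff 0 ≠ 0) (hε : ε ≤ 1 / 4) (hεΦ : 2 * Real.sqrt ε ≤ Φ) (hεθ : 2 * Real.sqrt ε ≤ θ₀) :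
    ∀ z ∈ (P.map (algebraMap ℝ ℂ)).roots, ‖z‖ < ε → z.im = 0 ∧ z.re < 0 := by
  intro z hz hzε
  have hroot : (P.map (algebraMap ℝ ℂ)).eval z = 0 := by
    have := (mem_roots'.1 hz).2
    exact this
  by_contra hcon
  have hz0 : z ≠ 0 := by
    rintro rfl
    rw [← coeff_zero_eq_eval_zero, coeff_map] at hroot
    apply h0
    exact (algebraMap ℝ ℂ).injective (by simpa using hroot)
  have hslit : z ∈ slitPlane := by
    rw [mem_slitPlane_iff]
    by_contra hc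
    push Not at hc
    apply hcon
    refine ⟨hc.2, lt_of_le_of_ne hc.1 ?_⟩
    intro h
    exact hz0 (Complex.ext h hc.2)
  obtain ⟨φ, h1, h2, h3⟩ := exists_phi z hslit (by linarith)
  have hs : Real.sqrt ‖z‖ ≤ Real.sqrt ε := Real.sqrt_le_sqrt hzε.le
  apply hP φ h1
  · exact (re_le_norm φ).trans (by linarith)
  · exact (abs_im_le_norm φ).trans (by linarith)
  · rw [h3, hroot]

end Pool.Agent.Helper48.EV
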