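import Mathlib
import Pool.Agent.Helper48.EV.Mean

/-! CORE (g): the top coefficients. -/

namespace Pool.Agent.Helper48.EV

open Polynomial

theorem log_sinh_sub (x : ℝ) (hx : 1 < x) :
    Real.log (Real.sinh x) - Real.log (Real.sinh (x - 1))
      ≤ 1 - Real.log (1 - Real.exp (2 - 2 * x)) := by
  have h1 : 0 < Real.sinh (x - 1) := Real.sinh_pos_iff.2 (by linarith)
  have h2 : 0 < Real.sinh x := Real.sinh_pos_iff.2 (by linarith)
  have h3 : Real.exp (2 - 2 * x) < 1 := by
    rw [Real.exp_lt_one_iff]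
    linarith
  have h4 : 0 < 1 - Real.exp (2 - 2 * x) := by linarith
  have e1 : Real.sinh (x - 1) = Real.exp (x - 1) / 2 * (1 - Real.exp (2 - 2 * x)) := by
    rw [Real.sinh_eq]
    have : Real.exp (x - 1) * Real.exp (2 - 2 * x) = Real.exp (-(x - 1)) := by
      rw [← Real.exp_add]; ring_nf
    linear_combination this / 2
  have e2 : Real.sinh x ≤ Real.exp x / 2 := by
    rw [Real.sinh_eq]
    have := Real.exp_pos (-x)
    linarith
  have l1 : Real.log (Real.sinh (x - 1))
      = (x - 1) - Real.log 2 + Real.log (1 - Real.exp (2 - 2 * x)) := by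
    rw [e1, Real.log_mul (by positivity) h4.ne', Real.log_div (by positivity) (by norm_num),
      Real.log_exp]
  have l2 : Real.log (Real.sinh x) ≤ x - Real.log 2 := by
    have := Real.log_le_log h2 e2
    rwa [Real.log_div (by positivity) (by norm_num), Real.log_exp] at this
  linarith

/-- CORE (g). -/
theorem top (c4 : ℝ) (hc4 : 0 < c4) : ∃ Φ₀ : ℝ, 2 ≤ Φ₀ ∧ ∀ Φ : ℝ, Φ₀ ≤ Φ → ∀ a c C : ℝ,
    0 < c → 0 < C → ∃ L₀ : ℝ, ∀ L : ℝ, L₀ ≤ L → ∀ P : ℝ[X], (∀ i, 0 ≤ P.coeff i) →
      2 * (P.natDegree : ℝ) ≤ L →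
      (∀ x : ℝ, 0 < x → x ≤ Φ → c * x ^ a * Real.exp (L * x) ≤ P.eval (4 * Real.sinh x ^ 2)) →
      (∀ x : ℝ, 0 < x → x ≤ Φ → P.eval (4 * Real.sinh x ^ 2) ≤ C * x ^ (-a) * Real.exp (L * x)) →
      (P.natDegree : ℝ) - c4 * L ≤ mean P (4 * Real.sinh Φ ^ 2) := by
  have hexp : Real.exp (-c4) < 1 := by rw [Real.exp_lt_one_iff]; linarith
  have hη : 0 < 1 - Real.exp (-c4) := by linarith
  refine ⟨max 2 (1 - Real.log (1 - Real.exp (-c4)) / 2), le_max_left _ _, ?_⟩
  intro Φ hΦ a c C hc hC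
  have hΦ2 : 2 ≤ Φ := (le_max_left _ _).trans hΦ
  have hΦ1 : 1 - Real.log (1 - Real.exp (-c4)) / 2 ≤ Φ := (le_max_right _ _).trans hΦ
  have hb : Real.exp (2 - 2 * Φ) ≤ 1 - Real.exp (-c4) := by
    rw [← Real.le_log_iff_exp_le hη]
    linarith
  have hlog : -c4 ≤ Real.log (1 - Real.exp (2 - 2 * Φ)) := by
    rw [Real.le_log_iff_exp_le (by linarith [Real.exp_pos (-c4)])]
    linarith
  set K : ℝ := |Real.log c| + |Real.log C| + |a| * |Real.log Φ| + |a| * |Real.log (Φ - 1)| with hK
  have hK0 : 0 ≤ K := by positivity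
  refine ⟨max 0 (K / c4), ?_⟩
  intro L hL P hcoef hdeg hlow hup
  have hL0 : 0 ≤ L := (le_max_left _ _).trans hL
  have hLK : K ≤ c4 * L := by
    have : K / c4 ≤ L := (le_max_right _ _).trans hL
    rw [div_le_iff₀ hc4] at this
    linarith
  set x : ℝ := 4 * Real.sinh (Φ - 1) ^ 2 with hx
  set y : ℝ := 4 * Real.sinh Φ ^ 2 with hy
  have hsx : 0 < Real.sinh (Φ - 1) := Real.sinh_pos_iff.2 (by linarith)
  have hsy : 0 < Real.sinh Φ := Real.sinh_pos_iff.2 (by linarith)
  have hx0 : 0 < x := by positivity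
  have hy0 : 0 < y := by positivity
  have hPy1 := hlow Φ (by linarith) le_rfl
  have hPx1 := hlow (Φ - 1) (by linarith) (by linarith)
  have hPx2 := hup (Φ - 1) (by linarith) (by linarith)
  have hΦp : 0 < Φ := by linarith
  have hΦp1 : 0 < Φ - 1 := by linarith
  have hPy : 0 < P.eval y := lt_of_lt_of_le (by positivity) hPy1
  have hPx : 0 < P.eval x := lt_of_lt_of_le (by positivity) hPx1
  have hslope := slope_le_mean P hcoef x y hx0 hy0 hPx hPy
  have l1 : Real.log c + a * Real.log Φ + L * Φ ≤ Real.log (P.eval y) := by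
    have := Real.log_le_log (by positivity) hPy1
    rwa [Real.log_mul (by positivity) (by positivity), Real.log_mul hc.ne' (by positivity),
      Real.log_exp, Real.log_rpow hΦp] at this
  have l2 : Real.log (P.eval x) ≤ Real.log C + (-a) * Real.log (Φ - 1) + L * (Φ - 1) := by
    have := Real.log_le_log hPx hPx2
    rwa [Real.log_mul (by positivity) (by positivity), Real.log_mul hC.ne' (by positivity),
      Real.log_exp, Real.log_rpow hΦp1] at this
  have l3 : Real.log y - Real.log x ≤ 2 + 2 * c4 := by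
    have h := log_sinh_sub Φ (by linarith)
    have ey : Real.log y = Real.log 4 + 2 * Real.log (Real.sinh Φ) := by
      rw [hy, Real.log_mul (by norm_num) (by positivity), Real.log_pow]
      norm_num
    have ex : Real.log x = Real.log 4 + 2 * Real.log (Real.sinh (Φ - 1)) := by
      rw [hx, Real.log_mul (by norm_num) (by positivity), Real.log_pow]
      norm_num
    rw [ey, ex]
    linarith
  have l4 : L - K ≤ Real.log (P.eval y) - Real.log (P.eval x) := by
    have b1 := neg_abs_le (Real.log c)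
    have b2 := le_abs_self (Real.log C)
    have b3 : -(|a| * |Real.log Φ|) ≤ a * Real.log Φ := by
      rw [← abs_mul]; exact neg_abs_le _
    have b4 : -(|a| * |Real.log (Φ - 1)|) ≤ a * Real.log (Φ - 1) := by
      rw [← abs_mul]; exact neg_abs_le _
    rw [hK]
    linarith
  have hm : 0 ≤ mean P y := mean_nonneg P hcoef y hy0 hPy
  have l5 : L - K ≤ mean P y * (2 + 2 * c4) :=
    (l4.trans hslope).trans (mul_le_mul_of_nonneg_left l3 hm)
  have hmd : mean P y ≤ L / 2 :=
    (mean_le_natDegree P hcoef y hy0 hPy).trans (by linarith)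
  have l6 : mean P y * (2 + 2 * c4) ≤ 2 * mean P y + L * c4 := by nlinarith
  linarith

end Pool.Agent.Helper48.EV
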