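import Mathlib
import Pool.Agent.Helper48.EV.Mean
import Pool.Agent.Helper48.EV.Top

/-! Lower end of the saddle range. -/

namespace Pool.Agent.Helper48.EV

open Polynomial

/-- `arsinh` near `0`: for `0 < s ≤ 1` the solution of `sinh x = s` satisfies `s/2 ≤ x ≤ s`. -/
theorem arsinh_bounds (s : ℝ) (hs : 0 < s) (hs1 : s ≤ 1) :
    s / 2 ≤ Real.arsinh s ∧ Real.arsinh s ≤ s := by
  constructor
  · have h : Real.sinh (s / 2) ≤ s := by
      have h1 := Real.abs_exp_sub_one_le (x := s / 2) (by rw [abs_of_pos (by linarith)]; linarith)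
      rw [abs_of_pos (show (0 : ℝ) < s / 2 by linarith)] at h1
      have h2 := Real.add_one_le_exp (-(s / 2))
      have h3 := le_abs_self (Real.exp (s / 2) - 1)
      rw [Real.sinh_eq]
      linarith
    rw [← Real.sinh_le_sinh, Real.sinh_arsinh]
    exact h
  · rw [← Real.sinh_le_sinh, Real.sinh_arsinh]
    exact Real.self_le_sinh_iff.2 hs.le

/-- Upper bound for the mean at `r` from the upper half of H1 at `4 r` and `P ≥ 1`. -/
theorem mean_le (P : ℝ[X]) (hcoef : ∀ i, 0 ≤ P.coeff i) (h0 : 1 ≤ P.coeff 0) (Φ C L : ℝ) (a : ℕ)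
    (hC : 0 < C) (hL : 0 ≤ L)
    (hup : ∀ x : ℝ, 0 < x → x ≤ Φ → x ^ a * P.eval (4 * Real.sinh x ^ 2) ≤ C * Real.exp (L * x))
    (s : ℝ) (hs : 0 < s) (hs1 : s ≤ 1) (hsΦ : s ≤ Φ) :
    mean P (s ^ 2) * Real.log 4 ≤ Real.log C + a * Real.log (2 / s) + L * s := by
  obtain ⟨b1, b2⟩ := arsinh_bounds s hs hs1
  set x := Real.arsinh s with hx
  have hx0 : 0 < x := by linarith
  have hsinh : Real.sinh x = s := Real.sinh_arsinh s
  have hxΦ : x ≤ Φ := by linarith
  have h1 := hup x hx0 hxΦ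
  rw [hsinh] at h1
  have hP1 : ∀ y : ℝ, 0 < y → 1 ≤ P.eval y := by
    intro y hy
    rw [eval_eq_sum_range, Finset.sum_range_succ']
    have : 0 ≤ ∑ k ∈ Finset.range P.natDegree, P.coeff (k + 1) * y ^ (k + 1) :=
      Finset.sum_nonneg fun i _ => mul_nonneg (hcoef _) (pow_nonneg hy.le _)
    simp only [pow_zero, mul_one]
    linarith
  have hs2 : 0 < s ^ 2 := by positivity
  have h4s : 0 < 4 * s ^ 2 := by positivity
  have hPs := hP1 _ hs2
  have hP4 := hP1 _ h4s
  have ht := tangent P hcoef (4 * s ^ 2) (s ^ 2) h4s hs2 (by linarith)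
  rw [show 4 * s ^ 2 / s ^ 2 = 4 by field_simp] at ht
  have h2 : Real.exp (mean P (s ^ 2) * Real.log 4) ≤ P.eval (4 * s ^ 2) :=
    (le_mul_of_one_le_left (Real.exp_pos _).le hPs).trans ht
  have h3 : P.eval (4 * s ^ 2) ≤ C * Real.exp (L * x) / x ^ a := by
    rw [le_div_iff₀ (by positivity)]
    linarith
  have h4 : Real.log (C * Real.exp (L * x) / x ^ a) ≤ Real.log C + a * Real.log (2 / s) + L * s := by
    rw [Real.log_div (by positivity) (by positivity), Real.log_mul hC.ne' (by positivity),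
      Real.log_exp, Real.log_pow]
    have h5 : Real.log (2 / s) = - Real.log (s / 2) := by
      rw [← Real.log_inv]; congr 1; field_simp
    have h6 : Real.log (s / 2) ≤ Real.log x := Real.log_le_log (by positivity) b1
    have h7 : (a : ℝ) * Real.log (s / 2) ≤ a * Real.log x :=
      mul_le_mul_of_nonneg_left h6 (Nat.cast_nonneg _)
    have h8 : L * x ≤ L * s := mul_le_mul_of_nonneg_left b2 hL
    rw [h5]
    linarith
  have h5 := Real.log_le_log (Real.exp_pos _) (h2.trans h3)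
  rw [Real.log_exp] at h5
  exact h5.trans h4

/-- Lower end of the saddle range: if `k ≥ K₁ log L` and `mean r = k` then
`L √r > M log L`. -/
theorem range_low (Φ C M : ℝ) (a : ℕ) (hΦ : 0 < Φ) (hC : 0 < C) (hM : 0 < M) :
    ∃ L₀ : ℝ, 1 < L₀ ∧ ∀ L : ℝ, L₀ ≤ L → ∀ P : ℝ[X], (∀ i, 0 ≤ P.coeff i) → 1 ≤ P.coeff 0 →
      (∀ x : ℝ, 0 < x → x ≤ Φ → x ^ a * P.eval (4 * Real.sinh x ^ 2) ≤ C * Real.exp (L * x)) →
      ∀ r : ℝ, 0 < r → ((a : ℝ) + M + 2) * Real.log L ≤ mean P r →
        M * Real.log L < L * Real.sqrt r := by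
  -- `log L / L → 0`
  have hlim : Filter.Tendsto (fun L : ℝ => Real.log L / L) Filter.atTop (nhds 0) :=
    Real.isLittleO_log_id_atTop.tendsto_div_nhds_zero
  have hev1 : ∀ᶠ L : ℝ in Filter.atTop, Real.log L / L < min 1 Φ / M :=
    hlim.eventually (gt_mem_nhds (by positivity))
  have hev2 : ∀ᶠ L : ℝ in Filter.atTop,
      |Real.log C| + a * |Real.log (2 / M)| + 1 < Real.log L :=
    Real.tendsto_log_atTop.eventually (Filter.eventually_gt_atTop _)
  obtain ⟨L₁, hL₁⟩ := Filter.eventually_atTop.1 (hev1.and hev2)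
  refine ⟨max 3 L₁, lt_of_lt_of_le (by norm_num) (le_max_left _ _), ?_⟩
  intro L hL P hcoef h0 hup r hr hmean
  have hL3 : 3 ≤ L := (le_max_left _ _).trans hL
  have hL0 : 0 < L := by linarith
  obtain ⟨e1, e2⟩ := hL₁ L ((le_max_right _ _).trans hL)
  by_contra hcon
  push Not at hcon
  have hlog : 1 ≤ Real.log L := by
    have : 0 ≤ |Real.log C| + a * |Real.log (2 / M)| := by positivity
    linarith
  set s : ℝ := M * Real.log L / L with hs
  have hs0 : 0 < s := by positivity
  have hsmin : s ≤ min 1 Φ := by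
    have : M * (Real.log L / L) ≤ M * (min 1 Φ / M) := mul_le_mul_of_nonneg_left e1.le hM.le
    rw [mul_div_cancel₀ _ hM.ne'] at this
    rw [hs, mul_div_assoc]
    exact this
  have hs1 : s ≤ 1 := hsmin.trans (min_le_left _ _)
  have hsΦ : s ≤ Φ := hsmin.trans (min_le_right _ _)
  have hrs : r ≤ s ^ 2 := by
    have h1 : Real.sqrt r ≤ s := by
      rw [hs, le_div_iff₀ hL0]
      linarith
    calc r = Real.sqrt r ^ 2 := (Real.sq_sqrt hr.le).symm
      _ ≤ s ^ 2 := pow_le_pow_left₀ (Real.sqrt_nonneg _) h1 2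
  have hP1 : ∀ y : ℝ, 0 < y → 0 < P.eval y := by
    intro y hy
    have h2 : 1 ≤ P.eval y := by
      rw [eval_eq_sum_range, Finset.sum_range_succ']
      have : 0 ≤ ∑ k ∈ Finset.range P.natDegree, P.coeff (k + 1) * y ^ (k + 1) :=
        Finset.sum_nonneg fun i _ => mul_nonneg (hcoef _) (pow_nonneg hy.le _)
      simp only [pow_zero, mul_one]
      linarith
    linarith
  have hmono := mean_mono P hcoef r (s ^ 2) hr hrs (hP1 r hr) (hP1 _ (by positivity))
  have hm := mean_le P hcoef h0 Φ C L a hC hL0.le hup s hs0 hs1 hsΦ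
  have hlog4 : 1 ≤ Real.log 4 := by
    rw [Real.le_log_iff_exp_le (by norm_num)]
    have := Real.exp_one_lt_d9
    linarith
  have hmn : 0 ≤ mean P (s ^ 2) := mean_nonneg P hcoef _ (by positivity) (hP1 _ (by positivity))
  have h1 : ((a : ℝ) + M + 2) * Real.log L ≤ Real.log C + a * Real.log (2 / s) + L * s := by
    calc ((a : ℝ) + M + 2) * Real.log L ≤ mean P (s ^ 2) := hmean.trans hmono
      _ ≤ mean P (s ^ 2) * Real.log 4 := le_mul_of_one_le_right hmn hlog4
      _ ≤ _ := hm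
  have h2 : L * s = M * Real.log L := by rw [hs]; field_simp
  have h3 : Real.log (2 / s) ≤ Real.log L + |Real.log (2 / M)| := by
    have : 2 / s = (2 / M) * (L / Real.log L) := by rw [hs]; field_simp
    rw [this, Real.log_mul (by positivity) (by positivity), Real.log_div hL0.ne' (by positivity)]
    have h4 : 0 ≤ Real.log (Real.log L) := Real.log_nonneg hlog
    linarith [le_abs_self (Real.log (2 / M))]
  have h4 : (a : ℝ) * Real.log (2 / s) ≤ a * Real.log L + a * |Real.log (2 / M)| := by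
    calc (a : ℝ) * Real.log (2 / s) ≤ a * (Real.log L + |Real.log (2 / M)|) :=
          mul_le_mul_of_nonneg_left h3 (Nat.cast_nonneg _)
      _ = _ := by ring
  have h5 := le_abs_self (Real.log C)
  rw [h2] at h1
  nlinarith

end Pool.Agent.Helper48.EV
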